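import Pool.Agent.Q18.LF.Stm
import Pool.Agent.Y624.NV.Trn
import Pool.Agent.Y63.AWC.Deg

/-!
# Project NB, job KRP: the case of a group of order prime to `p`
-/

set_option autoImplicit false

open scoped Classical

noncomputable section

namespace Pool.Agent.Q285.NB

open Pool.Agent.Y63.NV Pool.Agent.Q18.LF
open Pool.Agent.Y63.KR (IsPChain chainStabilizer alternatingSum conjSub chainSetoid)
open Pool.Agent.Y63.AWC (IsIrreducibleCharacter deg_nat deg_dvd)
open Pool.Agent.Y624.NV (irr_comp centralValue_comp)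
open Pool.Agent.Helper884.IC (IsIrrChar)

/-- in a group of order prime to `p` all irreducible characters have defect zero -/
theorem isWt_of_irr (p : ℕ) {J : Type} [Group J] [Finite J] (hp : ¬ p ∣ Nat.card J) {χ : J → ℂ}
    (h : IsIrreducibleCharacter χ) : IsWt p (⊥ : Subgroup J) χ := by
  have _ : Fintype J := Fintype.ofFinite J
  have h1 : IsIrrChar χ := h
  obtain ⟨n, -, hn⟩ := deg_nat h1
  refine ⟨h, fun q hq x => ?_, n, hn, ?_⟩
  · rw [(Subgroup.mem_bot).1 hq, one_mul]
  · have h2 := deg_dvd h1 hn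
    have h3 : ¬ p ∣ n := fun h => hp (h.trans h2)
    rw [Nat.factorization_eq_zero_of_not_dvd h3, Nat.factorization_eq_zero_of_not_dvd hp,
      Subgroup.card_bot, Nat.factorization_one]
    rfl

/-- characters of the trivial subgroup in the case of `⊤` -/
theorem numIrrInd_top (p : ℕ) {F : Type} [Field F] (red : integralClosure ℤ ℂ →+* F) {J : Type}
    [Group J] [Finite J] (hp : ¬ p ∣ Nat.card J) (B : (J → F) → F) :
    numIrrInd red (⊤ : Subgroup J) B = numDzBlock p red B := by
  have hval : ∀ χ : J → ℂ, IsIrreducibleCharacter χ → ∀ f : J → F, IsClassFun f →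
      centralValue red (fun x : (⊤ : Subgroup J) => χ x) (fun x : (⊤ : Subgroup J) => f x) =
        centralValue red χ f := fun χ hχ f hf =>
    centralValue_comp red (Subgroup.topEquiv : (⊤ : Subgroup J) ≃* J) hχ hf
  unfold numIrrInd numDzBlock
  refine Nat.card_congr
    { toFun := fun χ => ⟨fun x => χ.1 (Subgroup.topEquiv.symm x), ?_⟩
      invFun := fun χ => ⟨fun x => χ.1 x, ?_⟩
      left_inv := fun χ => rfl
      right_inv := fun χ => rfl }
  · have h1 := irr_comp (Subgroup.topEquiv.symm : J ≃* (⊤ : Subgroup J)) χ.2.1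
    refine ⟨isWt_of_irr p hp h1, fun f hf => ?_⟩
    rw [← hval _ h1 f hf]
    exact χ.2.2 f hf
  · refine ⟨irr_comp (Subgroup.topEquiv : (⊤ : Subgroup J) ≃* J) χ.2.1.irr, fun f hf => ?_⟩
    rw [hval _ χ.2.1.irr f hf]
    exact χ.2.2 f hf

/-- KRP. -/
theorem krp : S_KRP := by
  intro p _ F _ _ _ red J _ _ hp B hB
  have hbot : ∀ P : Subgroup J, IsPGroup p P → P = ⊥ := by
    intro P hP
    obtain ⟨n, hn⟩ := IsPGroup.iff_card.1 hP
    have h1 : Nat.card P ∣ Nat.card J := Subgroup.card_subgroup_dvd_card P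
    rcases n with _ | n
    · rw [pow_zero] at hn
      exact Subgroup.card_eq_one.1 hn
    · exfalso
      apply hp
      rw [hn] at h1
      exact (dvd_pow_self p (Nat.succ_ne_zero n)).trans h1
  have hσ : ∀ σ : {σ : Set (Subgroup J) // IsPChain p σ}, σ.1 = ∅ := by
    intro σ
    rw [Set.eq_empty_iff_forall_notMem]
    intro P hP
    exact σ.2.ne_bot P hP (hbot P (σ.2.isPGroup P hP))
  have e0 : IsPChain p (∅ : Set (Subgroup J)) :=
    ⟨fun a ha => ha.elim, fun P hP => hP.elim, fun P hP => hP.elim⟩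
  have h1 : alternatingSum p J (fun H => (numIrrInd red H B : ℤ)) =
      numIrrInd red (chainStabilizer (∅ : Set (Subgroup J))) B := by
    unfold alternatingSum
    rw [finsum_eq_single _ (Quotient.mk (chainSetoid p J) ⟨∅, e0⟩)]
    · rw [hσ, Set.ncard_empty, pow_zero, one_mul]
    · intro c hc
      exfalso
      apply hc
      obtain ⟨σ, rfl⟩ := Quotient.exists_rep c
      congr 1
      exact Subtype.ext (hσ σ)
  have h2 : chainStabilizer (∅ : Set (Subgroup J)) = ⊤ := by
    unfold chainStabilizer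
    simp
  rw [h1, h2, numIrrInd_top p red hp B]

end Pool.Agent.Q285.NB
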